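import Pool.Agent.Helper31_Dich.Final

/-!
# Short proofs of finite consistency of `A + Con_A`, or a general speed-up

All definitions used by the statement are in `Pool.Agent.Helper31_Con.Defs`.
-/

namespace Pool.Agent.Results.MP_8d3a7a_lc.Dichotomy

open Helper31Con

/-- There is a formula defining finite consistency in `ℕ`, and for every such formula `con`, every
finite set `B` of true sentences and all reals `α ≥ 1` and `β` with `α > 1` or `β = 1`, at least
one of the following holds.

(a) There are a finite set `A` of true sentences that includes `B` and Robinson arithmetic,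
`A + Con_A` being consistent, and `c` such that for every `x` there is `N ≥ x` for which `A` proves
`Con_{A + Con_A}(n)` with at most `2 ^ (c (log₂ N) ^ α)` symbols for all `n ≤ N`; if `α = 1`, such
an `N` exists below the `c`-fold iterated exponential of `x`.

(b) There are a finite set `E` of true sentences that includes `B` and Robinson arithmetic and an
infinite set `J` such that for every consistent finite set `S` of sentences and every `d`, for all
large `m` in `J`, `E` proves `Con_S(n)` with at most `2 ^ m` symbols for all `n ≤ d m ^ β`. -/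
theorem result :
    (∃ con : Fm, IsCon con) ∧
    ∀ con : Fm, IsCon con → ∀ B : List Fm, (∀ φ ∈ B, TrueS φ) →
      ∀ α β : ℝ, 1 ≤ α → (1 < α ∨ β = 1) →
      (∃ (A : List Fm) (c : ℕ),
        (∀ φ ∈ A, TrueS φ) ∧ (∀ φ ∈ B, φ ∈ A) ∧ (∀ φ ∈ Q, φ ∈ A) ∧
        (∀ k, ¬ Prov (conS con A :: A) k .bot) ∧
        ∀ x : ℕ, ∃ N ≥ x, (α = 1 → N ≤ (fun t => 2 ^ t)^[c] x) ∧
          ∀ n ≤ N, Prov A ⌊(2 : ℝ) ^ ((c : ℝ) * Real.logb 2 N ^ α)⌋₊
            (conN con (conS con A :: A) n)) ∨
      (∃ (E : List Fm) (J : Set ℕ),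
        (∀ φ ∈ E, TrueS φ) ∧ (∀ φ ∈ B, φ ∈ E) ∧ (∀ φ ∈ Q, φ ∈ E) ∧ J.Infinite ∧
        ∀ S : List Fm, (∀ φ ∈ S, Fm.Sentence φ) → (∀ k, ¬ Prov S k .bot) → ∀ d : ℕ,
          ∃ m₀, ∀ m ∈ J, m₀ ≤ m → ∀ n : ℕ, (n : ℝ) ≤ d * (m : ℝ) ^ β →
            Prov E (2 ^ m) (conN con S n)) :=
  ⟨exists_con, fun _ hcon B hB α β hα hαβ => ML.dichotomy hcon B hB α β hα hαβ⟩

end Pool.Agent.Results.MP_8d3a7a_lc.Dichotomy
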