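import Pool.Agent.Helper40_H.Tfae
import Pool.Agent.Helper31_Con.Inst4

/-!
# Equivalent forms of the negative answer for all sufficiently strong theories

The definitions used by the statement are in `Pool.Agent.Helper31_Con.Defs` (formulas, proofs, the
length of proofs, finite consistency) and `Pool.Agent.Helper40_H.Defs` (five abbreviations).
-/

namespace Pool.Agent.Results.MP_8d3a7a_lc.Equivalents

open Helper31Con H40

/-- There is a formula defining finite consistency in `ℕ`, and for each such formula `con` the
following are equivalent, where `B`, `A`, `X`, `S`, `U` are finite sets of sentences and `Short A T`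
means that `A` has polynomial proofs of `Con_T(n)`.
1. There is a set `B` of true sentences such that no consistent `A` that proves `B` has polynomial
   proofs of `Con_{A + Con_A}(n)`.
2. There is a set `B` of true sentences such that no set `A ⊇ B` of true sentences has polynomial
   proofs of `Con_{A + Con_A}(n)`.
3. There is a set `B` of true sentences such that no consistent `X` that proves `B` has polynomial
   proofs of `Con_{B + Con_X}(n)`.
4. There are a formula `θ` such that `θ(S)` is true for every set `S` of true sentences, and a set
   `B` of true sentences such that no set `S ⊇ B` of true sentences has polynomial proofs of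
   `Con_{S + θ(S)}(n)`.
5. There are a computable function `f` and a set `B` of true sentences such that for each set
   `S ⊇ B` of true sentences `f` maps the code of `S` to the code of some consistent `U` such that
   `S` does not have polynomial proofs of `Con_U(n)`. -/
theorem result :
    (∃ con : Fm, IsCon con) ∧ ∀ con : Fm, IsCon con → List.TFAE [
      ∃ B : List Fm, AllTrue B ∧ ∀ A : List Fm, Sents A → Consis A → Proves A B →
        ¬ Short con A (conS con A :: A),
      ∃ B : List Fm, AllTrue B ∧ ∀ A : List Fm, AllTrue A → (∀ φ ∈ B, φ ∈ A) →
        ¬ Short con A (conS con A :: A),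
      ∃ B : List Fm, AllTrue B ∧ ∀ X : List Fm, Sents X → Consis X → Proves X B →
        ¬ Short con X (conS con X :: B),
      ∃ (θ : Fm) (B : List Fm), AllTrue B ∧
        (∀ S : List Fm, AllTrue S → TrueS (θ.sub 0 (.num (lc S)))) ∧
        ∀ S : List Fm, AllTrue S → (∀ φ ∈ B, φ ∈ S) →
          ¬ Short con S (θ.sub 0 (.num (lc S)) :: S),
      ∃ (f : ℕ → ℕ) (B : List Fm), Computable f ∧ AllTrue B ∧
        ∀ S : List Fm, AllTrue S → (∀ φ ∈ B, φ ∈ S) →
          ∃ U : List Fm, f (lc S) = lc U ∧ Sents U ∧ Consis U ∧ ¬ Short con S U ] :=
  ⟨exists_con, fun _ hcon => H40.tfae hcon⟩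

end Pool.Agent.Results.MP_8d3a7a_lc.Equivalents
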