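import Pool.Agent.Helper71_LI.Long

/-!
# Subexponential proofs of finite consistency of `A + θ (A)` on long intervals

All definitions used by the statement are in `Pool.Agent.Helper31_Con.Defs`.
-/

namespace Pool.Agent.Results.MP_8d3a7a_lc.LongIntervals

open Helper31Con Filter

/-- There is a formula defining finite consistency in `ℕ`. Let `con` be any such formula, let `θ` be
a formula such that `θ (S)` is a true sentence for every finite set `S` of true sentences (for
example `θ (S) = Con_S`), let `B` be a finite set of true sentences and `s ≥ 1`. Then there are a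
finite set `A` of true sentences that includes `B` and Robinson arithmetic, `θ (A)` being true, and
monotone `g` and `h` such that, for all large `n`, the `s`-fold iterate of `h` is at most `2 ^ n`
and the `(s + 1)`-fold iterate of `g` is at least `2 ^ n`, such that `g` eventually exceeds every
power `n ^ k` and `h` is eventually below `2 ^ (n ^ ε)` for every `ε > 0`, and such that there are
arbitrarily large `N` for which `A` proves `Con_{A + θ (A)}(n)` with at most `h n` symbols for all
`n` with `n ≤ N ≤ g n`. -/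
theorem result :
    (∃ con : Fm, IsCon con) ∧
    ∀ con : Fm, IsCon con → ∀ θ : Fm,
      (∀ S : List Fm, (∀ φ ∈ S, TrueS φ) → TrueS (θ.sub 0 (.num (lc S)))) →
      ∀ B : List Fm, (∀ β ∈ B, TrueS β) → ∀ s : ℕ, 0 < s →
      ∃ (A : List Fm) (g h : ℕ → ℕ),
        (∀ φ ∈ θ.sub 0 (.num (lc A)) :: A, TrueS φ) ∧ (∀ φ ∈ B, φ ∈ A) ∧ (∀ φ ∈ Q, φ ∈ A) ∧
        Monotone g ∧ Monotone h ∧ (∀ᶠ n in atTop, h^[s] n ≤ 2 ^ n ∧ 2 ^ n ≤ g^[s + 1] n) ∧
        (∀ k : ℕ, ∀ᶠ n in atTop, n ^ k ≤ g n) ∧
        (∀ ε : ℝ, 0 < ε → ∀ᶠ n : ℕ in atTop, (h n : ℝ) ≤ 2 ^ ((n : ℝ) ^ ε)) ∧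
        ∀ M : ℕ, ∃ N ≥ M, ∀ n ≤ N, N ≤ g n →
          Prov A (h n) (conN con (θ.sub 0 (.num (lc A)) :: A) n) :=
  ⟨exists_con, fun _ hcon _ hθ B hB _ hs => H71.final hcon hθ B hB hs⟩

end Pool.Agent.Results.MP_8d3a7a_lc.LongIntervals
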