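import Pool.Agent.Helper81_P.Conj
import Pool.Agent.Helper31_Con.Inst4

/-!
# Optimal theories or negative answers

The definitions used by the statement are in `Pool.Agent.Helper31_Con.Defs` (formulas, proofs, the
length of proofs, finite consistency), `Pool.Agent.Helper40_H.Defs` (`Sents`, `AllTrue`, `Consis`,
`Proves`, `Short`) and `Pool.Agent.Helper81_P.Defs` (`Within`, `PolyClosed`, `PolyF`, `SubexpF`,
`Optimal`, `Negative`).
-/

namespace Pool.Agent.Results.MP_8d3a7a_lc.OptimalOrNegative

open Helper31Con H40 X81

/-- There is a formula defining finite consistency in `ℕ`; the functions `n ^ c + c`, and the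
nondecreasing functions of growth `2 ^ (n ^ o(1))`, form classes closed under polynomial changes of
argument and value.  For each such formula `con` and each finite set `B` of true sentences there is
a finite set `B₁ ⊇ B ∪ Q` of true sentences such that for each closed class `Φ` and each finite set
`E` of sentences that proves `B₁` one of the following holds (`A` and `A₀` are finite sets of
sentences, and `A` lies below `E` if for some `f ∈ Φ` and all `n` the set `E` proves `Con_A(n)` with
at most `f n` symbols).
(a) All consistent finite sets `S` lie below `E`; so each `A` that proves `E` and has `A + Con_A`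
consistent proves `Con_{A + Con_A}(n)` for all `n` with lengths in `Φ`.
(b) For each `A₀` below `E` that proves `B₁` there is a true `σ` such that `A₀ + σ` lies below `E`,
and no `A` below `E` that proves `A₀ + σ` has polynomial proofs of `Con_{A + Con_A}(n)`, or of
`Con_{A₀ + σ + Con_A}(n)`, for all `n`.
If `Φ` is the class of the functions `n ^ c + c` and `E` is true, then not both hold. -/
theorem result :
    (∃ con : Fm, IsCon con) ∧ PolyClosed PolyF ∧ PolyClosed SubexpF ∧
    ∀ con : Fm, IsCon con → ∀ B : List Fm, AllTrue B →
      ∃ B₁ : List Fm, AllTrue B₁ ∧ (∀ φ ∈ B, φ ∈ B₁) ∧ (∀ φ ∈ Q, φ ∈ B₁) ∧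
        (∀ Φ : Set (ℕ → ℕ), PolyClosed Φ → ∀ E : List Fm, Sents E → Proves E B₁ →
          Optimal con Φ E ∨ Negative con Φ B₁ E) ∧
        ∀ E : List Fm, AllTrue E → ¬ (Optimal con PolyF E ∧ Negative con PolyF B₁ E) :=
  ⟨exists_con, polyClosed_poly, polyClosed_subexp, fun _ hcon _ hB => final hcon hB⟩

end Pool.Agent.Results.MP_8d3a7a_lc.OptimalOrNegative
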